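import Mathlib

/-!
# Sets without three translated triangles: the algebraic construction
-/

set_option autoImplicit false

namespace Pool.Agent.Q228.Tri

/-- `A` contains three translated triangles -/
def ContainsThree (A : Set (ℤ × ℤ)) : Prop :=
  ∃ X : Finset (ℤ × ℤ), X.card = 3 ∧ ∃ k : Fin 3 → ℤ × ℤ, Function.Injective k ∧
    ∀ i, ∀ x ∈ X, x + k i ∈ A

lemma contains_iff (A : Set (ℤ × ℤ)) : ContainsThree A ↔
    ∃ x k : Fin 3 → ℤ × ℤ, Function.Injective x ∧ Function.Injective k ∧
      ∀ i j, x i + k j ∈ A := by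
  constructor
  · rintro ⟨X, hX, k, hk, h⟩
    let e := (X.equivFinOfCardEq hX).symm
    refine ⟨fun i => (e i : ℤ × ℤ), k, ?_, hk, fun i j => h j _ (e i).2⟩
    intro i j hij
    exact e.injective (Subtype.ext hij)
  · rintro ⟨x, k, hx, hk, h⟩
    classical
    refine ⟨Finset.univ.image x, ?_, k, hk, ?_⟩
    · rw [Finset.card_image_of_injective _ hx]; simp
    · intro i y hy
      obtain ⟨j, -, rfl⟩ := Finset.mem_image.mp hy
      exact h j i

/-- the grid -/
noncomputable def G (n : ℕ) : Finset (ℤ × ℤ) := Finset.Icc 1 (n : ℤ) ×ˢ Finset.Icc 1 (n : ℤ)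

/-- the maximum size of a subset of the grid without three translated triangles -/
noncomputable def F (n : ℕ) : ℕ := by
  classical
  exact ((G n).powerset.filter fun A : Finset (ℤ × ℤ) =>
    ¬ ContainsThree (A : Set (ℤ × ℤ))).sup Finset.card

lemma le_F (n : ℕ) (A : Finset (ℤ × ℤ)) (h : A ⊆ G n) (hA : ¬ ContainsThree (A : Set (ℤ × ℤ))) :
    A.card ≤ F n := by
  classical
  unfold F
  exact Finset.le_sup (f := Finset.card) (by simp [h, hA])

lemma exists_F (n : ℕ) : ∃ A : Finset (ℤ × ℤ), A ⊆ G n ∧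
    ¬ ContainsThree (A : Set (ℤ × ℤ)) ∧ A.card = F n := by
  classical
  have hne : ((G n).powerset.filter fun A : Finset (ℤ × ℤ) =>
      ¬ ContainsThree (A : Set (ℤ × ℤ))).Nonempty := by
    refine ⟨∅, ?_⟩
    simp only [Finset.mem_filter, Finset.mem_powerset, Finset.empty_subset, true_and]
    rintro ⟨X, hX, k, -, h⟩
    have : X.Nonempty := by rw [← Finset.card_pos]; omega
    obtain ⟨x, hx⟩ := this
    simpa using h 0 x hx
  obtain ⟨A, hA, hAc⟩ := Finset.exists_mem_eq_sup _ hne Finset.card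
  simp only [Finset.mem_filter, Finset.mem_powerset] at hA
  refine ⟨A, hA.1, hA.2, ?_⟩
  unfold F
  convert hAc.symm using 2

lemma F_mono {m n : ℕ} (h : m ≤ n) : F m ≤ F n := by
  obtain ⟨A, h1, h2, h3⟩ := exists_F m
  rw [← h3]
  refine le_F n A (h1.trans ?_) h2
  intro v hv
  simp only [G, Finset.mem_product, Finset.mem_Icc] at hv ⊢
  omega

/-! ### The algebraic lemma -/

section field

variable {K : Type} [Field K] (σ : K →+* K)

lemma three_roots (a b c : K) (ha : a ≠ 0) (y : Fin 3 → K) (hy : Function.Injective y)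
    (h : ∀ i, a * y i ^ 2 + b * y i + c = 0) : False := by
  have h01 : y 0 - y 1 ≠ 0 := sub_ne_zero.mpr (fun hc => by simpa using hy hc)
  have h02 : y 0 - y 2 ≠ 0 := sub_ne_zero.mpr (fun hc => by simpa using hy hc)
  have h12 : y 1 - y 2 ≠ 0 := sub_ne_zero.mpr (fun hc => by simpa using hy hc)
  have e1 : (y 0 - y 1) * (a * (y 0 + y 1) + b) = 0 := by linear_combination h 0 - h 1
  have e2 : (y 0 - y 2) * (a * (y 0 + y 2) + b) = 0 := by linear_combination h 0 - h 2
  have f1 := (mul_eq_zero.mp e1).resolve_left h01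
  have f2 := (mul_eq_zero.mp e2).resolve_left h02
  have e3 : a * (y 1 - y 2) = 0 := by linear_combination f1 - f2
  exact h12 ((mul_eq_zero.mp e3).resolve_left ha)

/-- no three by three configuration in the norm graph -/
lemma norm_free (X k : Fin 3 → K) (α β : Fin 3 → K) (hX : Function.Injective X)
    (hk : Function.Injective k) (hα : ∀ i, α i ≠ 0) (hβ : ∀ i, β i ≠ 0)
    (h : ∀ i j, (X i + k j) * σ (X i + k j) = α i * β j) : False := by
  have hz : ∀ i, X i + k 2 ≠ 0 := by
    intro i hc
    have := h i 2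
    rw [hc, zero_mul] at this
    exact mul_ne_zero (hα i) (hβ 2) this.symm
  set y : Fin 3 → K := fun i => (X i + k 2)⁻¹ with hy
  have hyinj : Function.Injective y := by
    intro i j hij
    have := inv_injective hij
    exact hX (add_right_cancel this)
  set d1 := k 0 - k 2 with hd1
  set d2 := k 1 - k 2 with hd2
  have hd1' : d1 ≠ 0 := sub_ne_zero.mpr (fun hc => by simpa using hk hc)
  have hd2' : d2 ≠ 0 := sub_ne_zero.mpr (fun hc => by simpa using hk hc)
  have hd12 : d2 - d1 ≠ 0 := by
    rw [hd1, hd2]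
    intro hc
    have : k 1 = k 0 := by linear_combination hc
    simpa using hk this
  have hσ0 : ∀ x, x ≠ 0 → σ x ≠ 0 := fun x hx => (map_ne_zero σ).mpr hx
  have key : ∀ i j, (1 + (k j - k 2) * y i) * (1 + σ (k j - k 2) * σ (y i)) = β j / β 2 := by
    intro i j
    have hzi := hz i
    have hσzi := hσ0 _ hzi
    have e1 : 1 + (k j - k 2) * y i = (X i + k j) / (X i + k 2) := by
      rw [hy]; field_simp; ring
    have e2 : 1 + σ (k j - k 2) * σ (y i) = σ (X i + k j) / σ (X i + k 2) := by
      rw [← map_mul, ← map_one σ, ← map_add, e1, map_div₀]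
    rw [e1, e2, div_mul_div_comm, h i j, h i 2, mul_div_mul_left _ _ (hα i)]
  set g1 := β 0 / β 2 with hg1
  set g2 := β 1 / β 2 with hg2
  set A := d1 * d2 * (σ d2 - σ d1) with hA
  set B := σ d1 * σ d2 * (d2 - d1) with hB
  set C := (g1 - 1) * (d2 * σ d2) - (g2 - 1) * (d1 * σ d1) with hC
  have hσd : σ d2 - σ d1 ≠ 0 := by rw [← map_sub]; exact hσ0 _ hd12
  have hlin : ∀ i, B * σ (y i) = C - A * y i := by
    intro i
    have k0 := key i 0
    have k1 := key i 1
    rw [← hd1] at k0
    rw [← hd2] at k1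
    rw [hA, hB, hC]
    linear_combination (d2 * σ d2) * k0 - (d1 * σ d1) * k1
  refine three_roots (-(d1 * σ d1 * A)) (B * d1 - σ d1 * A + d1 * σ d1 * C)
    (B * (1 - g1) + σ d1 * C) ?_ y hyinj ?_
  · apply neg_ne_zero.mpr
    exact mul_ne_zero (mul_ne_zero hd1' (hσ0 _ hd1')) (mul_ne_zero (mul_ne_zero hd1' hd2') hσd)
  · intro i
    have k0 := key i 0
    rw [← hd1] at k0
    have := hlin i
    linear_combination B * k0 - (σ d1 + d1 * σ d1 * y i) * this

end field

/-! ### The construction -/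

lemma lower (p s : ℕ) [hp : Fact p.Prime] (hs : s ^ 2 + 1 ≤ p) :
    s ^ 2 * (p + 1) ≤ F (p * s) := by
  classical
  let K := GaloisField p 2
  have : Fintype K := Fintype.ofFinite K
  have hcard : Fintype.card K = p ^ 2 := by
    rw [← Nat.card_eq_fintype_card]; exact GaloisField.card p 2 (by norm_num)
  have hp2 := hp.out.two_le
  -- an element outside the prime field
  obtain ⟨θ, hθ⟩ : ∃ θ : K, θ ∉ Set.range (algebraMap (ZMod p) K) := by
    by_contra hcon
    push Not at hcon
    have hsurj : Function.Surjective (algebraMap (ZMod p) K) := fun x => hcon x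
    have := Fintype.card_le_of_surjective _ hsurj
    rw [hcard, ZMod.card] at this
    nlinarith
  -- a primitive root of order p - 1
  obtain ⟨γ, hγ⟩ := IsCyclic.exists_generator (α := Kˣ)
  have hγo : orderOf γ = p ^ 2 - 1 := by
    rw [orderOf_eq_card_of_forall_mem_zpowers hγ, Nat.card_eq_fintype_card, Fintype.card_units,
      hcard]
  have hfac : p ^ 2 - 1 = (p + 1) * (p - 1) := by
    have : p ^ 2 - 1 = p ^ 2 - 1 ^ 2 := by norm_num
    rw [this, Nat.sq_sub_sq]
  set g : Kˣ := γ ^ (p + 1) with hg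
  have hprim : IsPrimitiveRoot g (p - 1) := by
    have h1 : IsPrimitiveRoot γ (p ^ 2 - 1) := by rw [← hγo]; exact IsPrimitiveRoot.orderOf γ
    exact h1.pow (by rw [hfac]; exact Nat.mul_pos (by omega) (by omega)) hfac
  let ψ : ℤ × ℤ → K := fun v => (v.1 : K) + (v.2 : K) * θ
  let L : ℤ × ℤ → ℤ := fun v => v.1 - s * v.2
  have hψ_add : ∀ v w, ψ (v + w) = ψ v + ψ w := by
    intro v w; simp only [ψ, Prod.fst_add, Prod.snd_add]; push_cast; ring
  have hL_add : ∀ v w, L (v + w) = L v + L w := by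
    intro v w; simp only [L, Prod.fst_add, Prod.snd_add]; ring
  have hψ0 : ∀ v, ψ v = 0 → (p : ℤ) ∣ v.1 ∧ (p : ℤ) ∣ v.2 := by
    intro v hv
    have hb : (v.2 : K) = 0 := by
      by_contra hb
      apply hθ
      refine ⟨-(v.1 : ZMod p) / (v.2 : ZMod p), ?_⟩
      rw [map_div₀, map_neg, map_intCast, map_intCast, div_eq_iff hb]
      simp only [ψ] at hv
      linear_combination -hv
    have ha : (v.1 : K) = 0 := by
      simp only [ψ] at hv
      rw [hb] at hv
      simpa using hv
    rw [CharP.intCast_eq_zero_iff K p] at ha hb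
    exact ⟨ha, hb⟩
  let σ : K →+* K := frobenius K p
  let N : K → K := fun x => x * σ x
  have hN : ∀ x, N x = x ^ (p + 1) := by
    intro x; simp only [N, σ, frobenius_def]; ring
  -- the sets
  let S : K × ℕ → Finset (ℤ × ℤ) := fun h =>
    (G (p * s)).filter fun v => N (ψ v + h.1) = ((g ^ (L v + (h.2 : ℤ)) : Kˣ) : K)
  have hfree : ∀ h, ¬ ContainsThree (S h : Set (ℤ × ℤ)) := by
    intro h hcon
    rw [contains_iff] at hcon
    obtain ⟨x, k, hx, hk, hxk⟩ := hcon
    have hmem : ∀ i j, (x i + k j) ∈ G (p * s) ∧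
        N (ψ (x i) + h.1 + ψ (k j)) = ((g ^ (L (x i) + (h.2 : ℤ)) : Kˣ) : K) *
          ((g ^ (L (k j)) : Kˣ) : K) := by
      intro i j
      have := hxk i j
      simp only [S, Finset.coe_filter, Set.mem_ofPred_eq] at this
      refine ⟨this.1, ?_⟩
      rw [← Units.val_mul, ← zpow_add]
      have e1 : ψ (x i) + h.1 + ψ (k j) = ψ (x i + k j) + h.1 := by rw [hψ_add]; ring
      have e2 : L (x i) + (h.2 : ℤ) + L (k j) = L (x i + k j) + (h.2 : ℤ) := by
        rw [hL_add]; ring
      rw [e1, e2]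
      exact this.2
    -- distinctness
    have hdist : ∀ v w : ℤ × ℤ, ψ v = ψ w → (g ^ (L v) : Kˣ) = g ^ (L w) →
        (|v.1 - w.1| < p * s ∧ |v.2 - w.2| < p * s) → v = w := by
      intro v w h1 h2 h3
      have h4 : ψ (v - w) = 0 := by
        have : ψ v = ψ (v - w) + ψ w := by rw [← hψ_add]; simp
        rw [h1] at this
        exact (add_eq_right.mp this.symm)
      obtain ⟨⟨a, ha⟩, ⟨b, hb⟩⟩ := hψ0 _ h4
      have h5 : g ^ (L v - L w) = 1 := by rw [zpow_sub, h2]; simp
      rw [hprim.zpow_eq_one_iff_dvd] at h5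
      simp only [Prod.fst_sub, Prod.snd_sub] at ha hb
      have hpz : (0 : ℤ) < p := by exact_mod_cast hp.out.pos
      rw [ha, hb, abs_mul, abs_mul, Nat.abs_cast] at h3
      have ha' : |a| < s := lt_of_mul_lt_mul_left h3.1 hpz.le
      have hb' : |b| < s := lt_of_mul_lt_mul_left h3.2 hpz.le
      have h6 : ((p - 1 : ℕ) : ℤ) ∣ a - s * b := by
        have e : L v - L w = (p : ℤ) * (a - s * b) := by
          simp only [L]; linear_combination ha - s * hb
        rw [e] at h5
        have e2 : a - s * b = (p : ℤ) * (a - s * b) - ((p - 1 : ℕ) : ℤ) * (a - s * b) := by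
          have : ((p - 1 : ℕ) : ℤ) = p - 1 := by
            rw [Nat.cast_sub (by omega)]; simp
          rw [this]; ring
        rw [e2]
        exact dvd_sub h5 (dvd_mul_right _ _)
      have hs1 : (s : ℤ) ^ 2 ≤ ((p - 1 : ℕ) : ℤ) := by
        rw [Nat.cast_sub (by omega)]
        have : (s : ℤ) ^ 2 + 1 ≤ p := by exact_mod_cast hs
        push_cast; linarith
      have h7 : |a - s * b| < ((p - 1 : ℕ) : ℤ) := by
        refine lt_of_lt_of_le ?_ hs1
        have h8 : |a - s * b| ≤ |a| + s * |b| := by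
          calc |a - s * b| ≤ |a| + |(s : ℤ) * b| := abs_sub _ _
            _ = |a| + s * |b| := by rw [abs_mul, Nat.abs_cast]
        have h9 : |b| ≤ s - 1 := by omega
        have h10 : (0 : ℤ) ≤ s := Nat.cast_nonneg s
        have h11 := mul_le_mul_of_nonneg_left h9 h10
        nlinarith
      have h8 := Int.eq_zero_of_abs_lt_dvd h6 h7
      have hb0 : b = 0 := by
        by_contra hb0
        have : 1 ≤ |b| := Int.one_le_abs hb0
        have h10 : (0 : ℤ) ≤ s := Nat.cast_nonneg s
        have h9 : |a| = s * |b| := by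
          have : a = s * b := by linarith
          rw [this, abs_mul, Nat.abs_cast]
        nlinarith
      have ha0 : a = 0 := by rw [hb0] at h8; linarith
      rw [ha0, mul_zero] at ha
      rw [hb0, mul_zero] at hb
      ext
      · linarith
      · linarith
    have hbox : ∀ v w : ℤ × ℤ, v ∈ G (p * s) → w ∈ G (p * s) →
        |v.1 - w.1| < p * s ∧ |v.2 - w.2| < p * s := by
      intro v w hv hw
      simp only [G, Finset.mem_product, Finset.mem_Icc, Nat.cast_mul] at hv hw
      constructor <;> rw [abs_lt] <;> constructor <;> linarith [hv.1.1, hv.1.2, hv.2.1, hv.2.2,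
        hw.1.1, hw.1.2, hw.2.1, hw.2.2]
    have hunit : ∀ z : ℤ, ((g ^ z : Kˣ) : K) ≠ 0 := fun z => Units.ne_zero _
    refine norm_free σ (fun i => ψ (x i) + h.1) (fun j => ψ (k j))
      (fun i => ((g ^ (L (x i) + (h.2 : ℤ)) : Kˣ) : K)) (fun j => ((g ^ (L (k j)) : Kˣ) : K))
      ?_ ?_ (fun _ => hunit _) (fun _ => hunit _) (fun i j => (hmem i j).2)
    · intro i j hij
      have h1 : ψ (x i) = ψ (x j) := add_right_cancel hij
      apply hx
      have b := hbox _ _ (hmem i 0).1 (hmem j 0).1
      have e1 : (x i + k 0).1 - (x j + k 0).1 = (x i).1 - (x j).1 := by simp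
      have e2 : (x i + k 0).2 - (x j + k 0).2 = (x i).2 - (x j).2 := by simp
      rw [e1, e2] at b
      refine hdist _ _ h1 ?_ b
      have h2 := (hmem i 0).2
      have h3 := (hmem j 0).2
      rw [h1, h3] at h2
      have h4 := mul_right_cancel₀ (hunit _) h2
      have h5 := Units.ext h4
      rw [zpow_add, zpow_add] at h5
      exact (mul_right_cancel h5).symm
    · intro i j hij
      have h1 : ψ (k i) = ψ (k j) := hij
      apply hk
      have b := hbox _ _ (hmem 0 i).1 (hmem 0 j).1
      have e1 : (x 0 + k i).1 - (x 0 + k j).1 = (k i).1 - (k j).1 := by simp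
      have e2 : (x 0 + k i).2 - (x 0 + k j).2 = (k i).2 - (k j).2 := by simp
      rw [e1, e2] at b
      refine hdist _ _ h1 ?_ b
      have h2 := (hmem 0 i).2
      have h3 := (hmem 0 j).2
      rw [h1, h3] at h2
      have h4 := mul_left_cancel₀ (hunit _) h2
      exact (Units.ext h4).symm
  -- averaging
  let I : Finset (K × ℕ) := Finset.univ ×ˢ Finset.range (p - 1)
  have hsum : (p * s) ^ 2 * (p ^ 2 - 1) ≤ ∑ h ∈ I, (S h).card := by
    have h1 : ∑ h ∈ I, (S h).card = ∑ v ∈ G (p * s), (I.filter fun h =>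
        N (ψ v + h.1) = ((g ^ (L v + (h.2 : ℤ)) : Kˣ) : K)).card := by
      simp only [S, Finset.card_filter]
      rw [Finset.sum_comm]
    rw [h1]
    have hG : (G (p * s)).card = (p * s) ^ 2 := by
      have e : ((p : ℤ) * s).toNat = p * s := by
        rw [← Nat.cast_mul, Int.toNat_natCast]
      simp [G, Finset.card_product, e]; ring
    rw [← hG, ← smul_eq_mul, ← Finset.sum_const]
    apply Finset.sum_le_sum
    intro v _
    -- for each `h₁` with `ψ v + h₁ ≠ 0` there is a `j`
    have hex : ∀ x : K, x ≠ 0 → ∃ j, j < p - 1 ∧ N x = ((g ^ (L v + (j : ℤ)) : Kˣ) : K) := by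
      intro x hx
      let u : Kˣ := Units.mk0 x hx
      have h2 : (u ^ (p + 1) * (g ^ (L v))⁻¹) ^ (p - 1) = 1 := by
        rw [mul_pow, ← pow_mul, ← hfac, inv_pow, ← zpow_natCast (g ^ L v), ← zpow_mul, mul_comm (L v),
          zpow_mul, zpow_natCast, hprim.pow_eq_one, one_zpow, inv_one, mul_one]
        have := pow_card_eq_one (x := u) (G := Kˣ)
        rwa [Fintype.card_units, hcard] at this
      have : NeZero (p - 1) := ⟨by omega⟩
      have h2K : (((u ^ (p + 1) * (g ^ (L v))⁻¹ : Kˣ)) : K) ^ (p - 1) = 1 := by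
        rw [← Units.val_pow_eq_pow_val, h2, Units.val_one]
      obtain ⟨j, hj, hj2'⟩ := (IsPrimitiveRoot.coe_units_iff.mpr hprim).eq_pow_of_pow_eq_one h2K
      have hj2 : g ^ j = u ^ (p + 1) * (g ^ (L v))⁻¹ := by
        apply Units.ext
        rw [Units.val_pow_eq_pow_val]
        exact hj2'
      refine ⟨j, hj, ?_⟩
      have h3 : u ^ (p + 1) = g ^ (L v + (j : ℤ)) := by
        rw [zpow_add, zpow_natCast, hj2]
        rw [mul_comm, inv_mul_cancel_right]
      rw [hN, ← h3]
      simp [u]
    choose! J hJ1 hJ2 using hex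
    have hinj : ((Finset.univ.erase (-ψ v)).image fun h1 => (h1, J (ψ v + h1))).card ≤
        (I.filter fun h => N (ψ v + h.1) = ((g ^ (L v + (h.2 : ℤ)) : Kˣ) : K)).card := by
      apply Finset.card_le_card
      intro h hh
      obtain ⟨h1, hh1, rfl⟩ := Finset.mem_image.mp hh
      have hne : ψ v + h1 ≠ 0 := by
        intro hc
        have : h1 = -ψ v := by linear_combination hc
        rw [this] at hh1
        simp at hh1
      simp only [I, Finset.mem_filter, Finset.mem_product, Finset.mem_univ, true_and,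
        Finset.mem_range]
      exact ⟨hJ1 _ hne, hJ2 _ hne⟩
    rw [Finset.card_image_of_injective _ (by intro a b hab; exact (Prod.mk.inj hab).1),
      Finset.card_erase_of_mem (Finset.mem_univ _), Finset.card_univ, hcard] at hinj
    exact hinj
  have hle : ∑ h ∈ I, (S h).card ≤ (p ^ 2 * (p - 1)) * F (p * s) := by
    calc ∑ h ∈ I, (S h).card ≤ ∑ h ∈ I, F (p * s) := by
          apply Finset.sum_le_sum
          intro h _
          exact le_F _ _ (Finset.filter_subset _ _) (hfree h)
      _ = (p ^ 2 * (p - 1)) * F (p * s) := by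
          rw [Finset.sum_const, smul_eq_mul]
          simp [I, Finset.card_product, hcard]
  have h1 := hsum.trans hle
  rw [hfac] at h1
  have h2 : (p ^ 2 * (p - 1)) * (s ^ 2 * (p + 1)) ≤ (p ^ 2 * (p - 1)) * F (p * s) := by
    calc (p ^ 2 * (p - 1)) * (s ^ 2 * (p + 1)) = (p * s) ^ 2 * ((p + 1) * (p - 1)) := by ring
      _ ≤ _ := h1
  exact Nat.le_of_mul_le_mul_left h2 (Nat.mul_pos (by positivity) (by omega))

end Pool.Agent.Q228.Tri
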