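import Pool.Agent.Q228.Tri.Lower

/-!
# Sets without three translated triangles: the upper bound

Füredi's argument for the Zarankiewicz problem `z(m, n; 3, 3)`, applied to the incidences of the
translates `t` of a small window and the points `w` of the window.
-/

set_option autoImplicit false

namespace Pool.Agent.Q228.Tri

open Finset

/-- Cauchy-Schwarz for a sum over a finset -/
lemma cs {α : Type} (s : Finset α) (f : α → ℝ) :
    (∑ i ∈ s, f i) ^ 2 ≤ s.card * ∑ i ∈ s, f i ^ 2 := sq_sum_le_card_mul_sum_sq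

/-- KST for 4-cycle free bipartite graphs: at most `√|R| |S| + |R|` edges -/
lemma kst {α β : Type} [DecidableEq α] [DecidableEq β] (R : Finset α) (S : Finset β)
    (r : α → β → Prop) [∀ a b, Decidable (r a b)]
    (h : ∀ a ∈ R, ∀ a' ∈ R, ∀ b ∈ S, ∀ b' ∈ S, b ≠ b' → r a b → r a b' → r a' b → r a' b' →
      a = a') :
    ((∑ a ∈ R, (S.filter (r a)).card : ℕ) : ℝ) ≤ Real.sqrt R.card * S.card + R.card := by
  set e : ℝ := ((∑ a ∈ R, (S.filter (r a)).card : ℕ) : ℝ) with he
  have h1 : ∑ a ∈ R, ((S.filter (r a)).card ^ 2 : ℕ) ≤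
      (∑ a ∈ R, (S.filter (r a)).card : ℕ) + S.card ^ 2 := by
    have h2 : ∀ a ∈ R, (S.filter (r a)).card ^ 2 = (S.filter (r a)).card +
        ((S.filter (r a)).offDiag).card := by
      intro a _
      rw [offDiag_card, pow_two]
      have : (S.filter (r a)).card ≤ (S.filter (r a)).card * (S.filter (r a)).card := by
        rcases Nat.eq_zero_or_pos (S.filter (r a)).card with h | h
        · rw [h]
        · exact Nat.le_mul_of_pos_left _ h
      omega
    rw [sum_congr rfl h2, sum_add_distrib]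
    apply Nat.add_le_add_left
    have h3 : ∑ a ∈ R, ((S.filter (r a)).offDiag).card =
        (R.biUnion fun a => (S.filter (r a)).offDiag).card := by
      rw [card_biUnion]
      intro a ha a' ha' hne
      rw [Function.onFun, disjoint_left]
      rintro ⟨b, b'⟩ hb hb'
      simp only [mem_offDiag, mem_filter] at hb hb'
      exact hne (h a ha a' ha' b hb.1.1 b' hb.2.1.1 hb.2.2 hb.1.2 hb.2.1.2 hb'.1.2 hb'.2.1.2)
    rw [h3]
    calc (R.biUnion fun a => (S.filter (r a)).offDiag).card ≤ (S ×ˢ S).card := by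
          apply card_le_card
          intro ⟨b, b'⟩ hb
          simp only [mem_biUnion, mem_offDiag, mem_filter] at hb
          obtain ⟨a, -, hb⟩ := hb
          exact mem_product.mpr ⟨hb.1.1, hb.2.1.1⟩
      _ = S.card ^ 2 := by rw [card_product, pow_two]
  have h4 : e ^ 2 ≤ R.card * (e + (S.card : ℝ) ^ 2) := by
    have h5 := cs R (fun a => ((S.filter (r a)).card : ℝ))
    have h6 : ∑ a ∈ R, ((S.filter (r a)).card : ℝ) = e := by rw [he]; push_cast; rfl
    rw [h6] at h5
    refine h5.trans (mul_le_mul_of_nonneg_left ?_ (Nat.cast_nonneg _))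
    rw [he]
    exact_mod_cast h1
  by_contra hcon
  push Not at hcon
  set q := Real.sqrt R.card with hq
  have hqq : q * q = R.card := Real.mul_self_sqrt (Nat.cast_nonneg _)
  have hq0 : 0 ≤ q := Real.sqrt_nonneg _
  have hS : (0 : ℝ) ≤ S.card := Nat.cast_nonneg _
  rw [← hqq] at h4 hcon
  have h7 : 0 < e - q * q := by nlinarith [mul_nonneg hq0 hS]
  -- `e (e - r) > (r + √r s) √r s ≥ r s²`
  have h8 : q * S.card < e - q * q := by linarith
  have h9 : e * (e - q * q) ≤ q * q * (S.card : ℝ) ^ 2 := by nlinarith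
  have h10 : 0 ≤ q * (S.card : ℝ) := mul_nonneg hq0 hS
  have h11 : (q * S.card) * (q * S.card) < e * (e - q * q) := by
    have h12 : q * S.card ≤ e := by nlinarith [mul_self_nonneg q]
    have h13 : 0 < e := by nlinarith [mul_self_nonneg q]
    calc (q * S.card) * (q * S.card) ≤ e * (q * S.card) :=
          mul_le_mul_of_nonneg_right h12 h10
      _ < e * (e - q * q) := mul_lt_mul_of_pos_left h8 h13
  nlinarith

/-- the main inequality -/
lemma upper (n u : ℕ) (hu : 0 < u) :
    (F n : ℝ) ^ 2 ≤ ((n : ℝ) + u) ^ 2 * (Real.sqrt (F n) + 1) +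
      2 * ((n : ℝ) + u) ^ 4 / (u : ℝ) ^ 2 := by
  classical
  obtain ⟨A, hA, hfree, hcard⟩ := exists_F n
  rw [← hcard]
  set a := A.card with ha
  rcases Nat.eq_zero_or_pos a with ha0 | hapos
  · rw [ha0]; simp; positivity
  let W : Finset (ℤ × ℤ) := Finset.Ico 0 (u : ℤ) ×ˢ Finset.Ico 0 (u : ℤ)
  let T : Finset (ℤ × ℤ) := Finset.Ioc (-(u : ℤ)) n ×ˢ Finset.Ioc (-(u : ℤ)) n
  have hW : W.card = u ^ 2 := by simp [W, card_product, pow_two]
  have hT : T.card = (n + u) ^ 2 := by
    have e : ((n : ℤ) + u).toNat = n + u := by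
      rw [← Nat.cast_add, Int.toNat_natCast]
    simp [T, card_product, pow_two, e]
  -- positions of `A` relative to a point of the window
  have hpos : ∀ w ∈ W, (T.filter fun t => t + w ∈ A).card = a := by
    intro w hw
    rw [ha]
    refine card_bij (fun t _ => t + w) ?_ ?_ ?_
    · intro t ht; exact (mem_filter.mp ht).2
    · intro t _ t' _ h; exact add_right_cancel h
    · intro v hv
      refine ⟨v - w, ?_, by simp⟩
      have hv' := hA hv
      simp only [G, W, T, mem_filter, mem_product, mem_Icc, mem_Ico, mem_Ioc, Prod.fst_sub,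
        Prod.snd_sub, sub_add_cancel] at hv' hw ⊢
      refine ⟨⟨⟨?_, ?_⟩, ?_, ?_⟩, hv⟩ <;> omega
  let d : ℤ × ℤ → ℕ := fun t => (W.filter fun w => t + w ∈ A).card
  have hD1 : ∑ t ∈ T, d t = u ^ 2 * a := by
    simp only [d, card_filter]
    rw [sum_comm]
    have : ∀ w ∈ W, ∑ t ∈ T, (if t + w ∈ A then 1 else 0) = a := by
      intro w hw; rw [← card_filter]; exact hpos w hw
    rw [sum_congr rfl this, sum_const, hW, smul_eq_mul]
  let D2 : ℝ := ∑ t ∈ T, (d t : ℝ) ^ 2
  have hD2 : ((u : ℝ) ^ 2 * a) ^ 2 ≤ ((n : ℝ) + u) ^ 2 * D2 := by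
    have h := cs T (fun t => (d t : ℝ))
    have e : ∑ t ∈ T, (d t : ℝ) = (u : ℝ) ^ 2 * a := by
      rw [← Nat.cast_sum, hD1]; push_cast; ring
    rw [e, hT] at h
    push_cast at h
    exact h
  -- codegrees
  let cod : (ℤ × ℤ) × (ℤ × ℤ) → ℕ := fun x => (T.filter fun t => t + x.1 ∈ A ∧ t + x.2 ∈ A).card
  have hcod : ∑ x ∈ W ×ˢ W, (cod x : ℝ) = D2 := by
    have h1 : ∑ x ∈ W ×ˢ W, cod x = ∑ t ∈ T, d t ^ 2 := by
      simp only [cod, card_filter]
      rw [sum_comm]
      apply sum_congr rfl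
      intro t _
      simp only [d]
      rw [pow_two, ← card_product, ← card_filter]
      congr 1
      ext ⟨w, w'⟩
      simp only [mem_filter, mem_product]
      tauto
    have h2 : ((∑ x ∈ W ×ˢ W, cod x : ℕ) : ℝ) = ((∑ t ∈ T, d t ^ 2 : ℕ) : ℝ) := by rw [h1]
    push_cast at h2
    exact h2
  have hQlow : D2 ^ 2 ≤ (u : ℝ) ^ 4 * ∑ x ∈ W ×ˢ W, (cod x : ℝ) ^ 2 := by
    have h := cs (W ×ˢ W) (fun x => (cod x : ℝ))
    rw [hcod, card_product, hW] at h
    push_cast at h
    calc D2 ^ 2 ≤ _ := h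
      _ = _ := by ring
  -- the number of edges between the neighbourhoods
  let E : (ℤ × ℤ) → (ℤ × ℤ) → ℕ := fun t w => ∑ t' ∈ T.filter (fun t' => t' + w ∈ A),
    ((W.filter (fun w' => t + w' ∈ A)).filter (fun w' => t' + w' ∈ A)).card
  have hQ : ∑ x ∈ W ×ˢ W, cod x ^ 2 = ∑ t ∈ T, ∑ w ∈ W.filter (fun w => t + w ∈ A), E t w := by
    have h1 : ∀ x ∈ W ×ˢ W, cod x ^ 2 = ∑ t ∈ T, ∑ t' ∈ T,
        if (t + x.1 ∈ A ∧ t + x.2 ∈ A) ∧ (t' + x.1 ∈ A ∧ t' + x.2 ∈ A) then 1 else 0 := by
      intro x _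
      simp only [cod, pow_two, card_filter]
      rw [sum_mul_sum]
      refine sum_congr rfl fun t _ => sum_congr rfl fun t' _ => ?_
      by_cases c1 : t + x.1 ∈ A ∧ t + x.2 ∈ A <;> by_cases c2 : t' + x.1 ∈ A ∧ t' + x.2 ∈ A <;>
        simp [c1, c2]
    rw [sum_congr rfl h1, sum_comm]
    refine sum_congr rfl fun t _ => ?_
    rw [sum_product]
    simp only [E, sum_filter, card_filter]
    refine sum_congr rfl fun w _ => ?_
    by_cases c : t + w ∈ A
    · simp only [c, true_and, if_true]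
      rw [sum_comm]
      refine sum_congr rfl fun t' _ => ?_
      by_cases c' : t' + w ∈ A
      · simp only [c', true_and, if_true]
        refine sum_congr rfl fun w' _ => ?_
        by_cases c1 : t + w' ∈ A <;> by_cases c2 : t' + w' ∈ A <;> simp [c1, c2]
      · simp [c']
    · simp [c]
  have hE : ∀ t ∈ T, ∀ w ∈ W, t + w ∈ A →
      (E t w : ℝ) ≤ (Real.sqrt a + 1) * d t + 2 * a := by
    intro t ht w hw htw
    let R := T.filter (fun t' => t' + w ∈ A)
    let S := W.filter (fun w' => t + w' ∈ A)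
    have hR : R.card = a := hpos w hw
    have hS : S.card = d t := rfl
    have htR : t ∈ R := mem_filter.mpr ⟨ht, htw⟩
    have hwS : w ∈ S := mem_filter.mpr ⟨hw, htw⟩
    have hk := kst (R.erase t) (S.erase w) (fun t' w' => t' + w' ∈ A) (by
      intro t1 h1 t2 h2 w1 h3 w2 h4 hne a1 a2 a3 a4
      by_contra hcon
      apply hfree
      rw [contains_iff]
      have h1' := mem_erase.mp h1
      have h2' := mem_erase.mp h2
      have h3' := mem_erase.mp h3
      have h4' := mem_erase.mp h4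
      have b1 := (mem_filter.mp h1'.2).2
      have b2 := (mem_filter.mp h2'.2).2
      have b3 := (mem_filter.mp h3'.2).2
      have b4 := (mem_filter.mp h4'.2).2
      refine ⟨![w, w1, w2], ![t, t1, t2], ?_, ?_, ?_⟩
      · intro i j hij
        fin_cases i <;> fin_cases j <;> simp at hij ⊢
        · exact h3'.1 hij.symm
        · exact h4'.1 hij.symm
        · exact h3'.1 hij
        · exact hne hij
        · exact h4'.1 hij
        · exact hne hij.symm
      · intro i j hij
        fin_cases i <;> fin_cases j <;> simp at hij ⊢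
        · exact h1'.1 hij.symm
        · exact h2'.1 hij.symm
        · exact h1'.1 hij
        · exact hcon hij
        · exact h2'.1 hij
        · exact hcon hij.symm
      · intro i j
        rw [mem_coe, add_comm]
        fin_cases i <;> fin_cases j <;> simp <;> assumption)
    have hsplit : E t w ≤ (∑ t' ∈ R.erase t, ((S.erase w).filter (fun w' => t' + w' ∈ A)).card) +
        d t + a := by
      have e1 : E t w = ∑ t' ∈ R, (S.filter (fun w' => t' + w' ∈ A)).card := rfl
      rw [e1, ← sum_erase_add _ _ htR]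
      have e2 : (S.filter (fun w' => t + w' ∈ A)).card ≤ d t := card_le_card (filter_subset _ _)
      have e3 : ∑ t' ∈ R.erase t, (S.filter (fun w' => t' + w' ∈ A)).card ≤
          ∑ t' ∈ R.erase t, (((S.erase w).filter (fun w' => t' + w' ∈ A)).card + 1) := by
        apply sum_le_sum
        intro t' _
        rw [filter_erase]
        have := pred_card_le_card_erase (s := S.filter (fun w' => t' + w' ∈ A)) (a := w)
        omega
      rw [sum_add_distrib, sum_const, smul_eq_mul, mul_one] at e3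
      have e4 : (R.erase t).card ≤ a := by
        rw [← hR]; exact card_le_card (erase_subset _ _)
      omega
    have c1 : ((R.erase t).card : ℝ) ≤ a := by
      have : (R.erase t).card ≤ a := by rw [← hR]; exact card_le_card (erase_subset _ _)
      exact_mod_cast this
    have c2 : ((S.erase w).card : ℝ) ≤ d t := by
      have : (S.erase w).card ≤ d t := by rw [← hS]; exact card_le_card (erase_subset _ _)
      exact_mod_cast this
    have c3 : Real.sqrt (R.erase t).card ≤ Real.sqrt a := Real.sqrt_le_sqrt c1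
    have c4 : (E t w : ℝ) ≤ ((∑ t' ∈ R.erase t,
        ((S.erase w).filter (fun w' => t' + w' ∈ A)).card : ℕ) : ℝ) + d t + a := by
      exact_mod_cast hsplit
    have c5 : Real.sqrt (R.erase t).card * (S.erase w).card ≤ Real.sqrt a * d t :=
      mul_le_mul c3 c2 (Nat.cast_nonneg _) (Real.sqrt_nonneg _)
    linarith
  have hQup : ∑ x ∈ W ×ˢ W, (cod x : ℝ) ^ 2 ≤ (Real.sqrt a + 1) * D2 +
      2 * a * ((u : ℝ) ^ 2 * a) := by
    have h1 : ∑ x ∈ W ×ˢ W, (cod x : ℝ) ^ 2 =
        ∑ t ∈ T, ∑ w ∈ W.filter (fun w => t + w ∈ A), (E t w : ℝ) := by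
      have := congrArg (fun z : ℕ => (z : ℝ)) hQ
      push_cast at this
      exact this
    rw [h1]
    calc ∑ t ∈ T, ∑ w ∈ W.filter (fun w => t + w ∈ A), (E t w : ℝ)
        ≤ ∑ t ∈ T, ∑ w ∈ W.filter (fun w => t + w ∈ A), ((Real.sqrt a + 1) * d t + 2 * a) := by
          refine sum_le_sum fun t ht => sum_le_sum fun w hw => ?_
          have := mem_filter.mp hw
          exact hE t ht w this.1 this.2
      _ = ∑ t ∈ T, ((Real.sqrt a + 1) * (d t : ℝ) ^ 2 + 2 * a * d t) := by
          refine sum_congr rfl fun t _ => ?_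
          rw [sum_const, nsmul_eq_mul]
          have : ((W.filter (fun w => t + w ∈ A)).card : ℝ) = d t := rfl
          rw [this]; ring
      _ = _ := by
          rw [sum_add_distrib, ← mul_sum, ← mul_sum, ← Nat.cast_sum, hD1]
          push_cast
          rfl
  -- conclusion
  have hu' : (0 : ℝ) < u := by exact_mod_cast hu
  have ha' : (0 : ℝ) < a := by exact_mod_cast hapos
  have hP : (0 : ℝ) < ((n : ℝ) + u) ^ 2 := by positivity
  set P := ((n : ℝ) + u) ^ 2 with hPdef
  have hP4 : ((n : ℝ) + u) ^ 4 = P ^ 2 := by rw [hPdef]; ring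
  rw [hP4]
  set q := Real.sqrt a with hq
  have hq0 : 0 ≤ q := Real.sqrt_nonneg _
  have hD2pos : 0 < D2 := by
    have : 0 < ((u : ℝ) ^ 2 * a) ^ 2 := by positivity
    by_contra hcon
    push Not at hcon
    have := mul_nonpos_of_nonneg_of_nonpos hP.le hcon
    linarith
  have h1 : D2 ^ 2 ≤ (u : ℝ) ^ 4 * ((q + 1) * D2 + 2 * a * ((u : ℝ) ^ 2 * a)) :=
    hQlow.trans (mul_le_mul_of_nonneg_left hQup (by positivity))
  -- `2 u⁶ a² ≤ 2 u² P D2`
  have h2 : 2 * (u : ℝ) ^ 6 * a ^ 2 ≤ 2 * (u : ℝ) ^ 2 * (P * D2) := by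
    have : 2 * (u : ℝ) ^ 6 * a ^ 2 = 2 * (u : ℝ) ^ 2 * ((u : ℝ) ^ 2 * a) ^ 2 := by ring
    rw [this]
    exact mul_le_mul_of_nonneg_left hD2 (by positivity)
  have h3 : D2 ≤ (u : ℝ) ^ 4 * (q + 1) + 2 * (u : ℝ) ^ 2 * P := by
    have h4 : D2 * D2 ≤ ((u : ℝ) ^ 4 * (q + 1) + 2 * (u : ℝ) ^ 2 * P) * D2 := by nlinarith
    exact le_of_mul_le_mul_right h4 hD2pos
  have h5 : (u : ℝ) ^ 4 * a ^ 2 ≤ P * ((u : ℝ) ^ 4 * (q + 1) + 2 * (u : ℝ) ^ 2 * P) := by
    calc (u : ℝ) ^ 4 * a ^ 2 = ((u : ℝ) ^ 2 * a) ^ 2 := by ring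
      _ ≤ P * D2 := hD2
      _ ≤ _ := mul_le_mul_of_nonneg_left h3 hP.le
  have h6 : (u : ℝ) ^ 4 * a ^ 2 ≤ (u : ℝ) ^ 4 * (P * (q + 1) + 2 * P ^ 2 / (u : ℝ) ^ 2) := by
    calc (u : ℝ) ^ 4 * a ^ 2 ≤ _ := h5
      _ = _ := by field_simp
  exact le_of_mul_le_mul_left h6 (by positivity)

end Pool.Agent.Q228.Tri
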